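import Pool.Agent.Helper93.GS.Stmts

set_option autoImplicit false

/-! # The linear span of the Magnus group is infinite dimensional (module INF) -/

namespace Pool.Agent.Helper93.GS

section

variable {A : Type} [Ring A] [Algebra ℚ A]

/-- the span -/
noncomputable def inf_S (x : Fin 2 → A) : Submodule ℚ (PowerSeries A) :=
  Submodule.span ℚ {b : PowerSeries A | ∃ w : FreeGroup (Fin 2), b = (mu x w : PowerSeries A)}

theorem inf_one (x : Fin 2 → A) : (1 : PowerSeries A) ∈ inf_S x :=
  Submodule.subset_span ⟨1, by rw [map_one, Units.val_one]⟩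

theorem inf_mul (x : Fin 2 → A) {a b : PowerSeries A} (ha : a ∈ inf_S x) (hb : b ∈ inf_S x) :
    a * b ∈ inf_S x := by
  unfold inf_S at ha
  induction ha using Submodule.span_induction with
  | mem a ha =>
    obtain ⟨u, rfl⟩ := ha
    unfold inf_S at hb
    induction hb using Submodule.span_induction with
    | mem b hb =>
      obtain ⟨v, rfl⟩ := hb
      exact Submodule.subset_span ⟨u * v, by rw [map_mul, Units.val_mul]⟩
    | zero =>
      rw [mul_zero]
      exact Submodule.zero_mem _
    | add p q _ _ hp hq =>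
      rw [mul_add]
      exact Submodule.add_mem _ hp hq
    | smul c p _ hp =>
      rw [mul_smul_comm]
      exact Submodule.smul_mem _ c hp
  | zero =>
    rw [zero_mul]
    exact Submodule.zero_mem _
  | add p q _ _ hp hq =>
    rw [add_mul]
    exact Submodule.add_mem _ hp hq
  | smul c p _ hp =>
    rw [smul_mul_assoc]
    exact Submodule.smul_mem _ c hp

theorem inf_gen (x : Fin 2 → A) (i : Fin 2) : PowerSeries.monomial 1 (x i) ∈ inf_S x := by
  have h1 : (PowerSeries.monomial 1 (x i) : PowerSeries A) =
      (mu x (FreeGroup.of i) : PowerSeries A) - 1 := by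
    unfold mu
    rw [FreeGroup.lift_apply_of]
    unfold un
    exact (add_sub_cancel_left _ _).symm
  rw [h1]
  exact Submodule.sub_mem _ (Submodule.subset_span ⟨_, rfl⟩) (inf_one x)

theorem inf_V0 {f : R} (hf : f ∈ V 0) : ∃ c : ℚ, f = c • (1 : R) := by
  refine ⟨f.coeff 1, ?_⟩
  ext w
  rw [MonoidAlgebra.coeff_smul, MonoidAlgebra.one_def]
  by_cases hw : w = 1
  · subst hw
    simp
  · have h1 : f.coeff w = 0 := by
      by_contra h
      exact hw (FreeMonoid.length_eq_zero.1 (hf w h))
    rw [h1]
    simp [hw, Ne.symm hw]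

theorem inf_mono (hV : ST_VDEC) (φ : R →ₐ[ℚ] A) : ∀ (n : ℕ), ∀ f ∈ V n,
    PowerSeries.monomial n (φ f) ∈ inf_S (fun i => φ (X i)) := by
  intro n
  induction n with
  | zero =>
    intro f hf
    obtain ⟨c, rfl⟩ := inf_V0 hf
    rw [map_smul, map_one]
    have h1 : (PowerSeries.monomial 0 (c • (1 : A)) : PowerSeries A) = c • (1 : PowerSeries A) := by
      ext m
      rw [PowerSeries.coeff_monomial, PowerSeries.coeff_smul, PowerSeries.coeff_one]
      split <;> simp
    rw [h1]
    exact Submodule.smul_mem _ c (inf_one _)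
  | succ n ih =>
    intro f hf
    obtain ⟨g, hg, h, hh, rfl⟩ := hV n f hf
    rw [map_add, map_mul, map_mul, map_add]
    refine Submodule.add_mem _ ?_ ?_
    · have h1 := inf_mul _ (ih g hg) (inf_gen (fun i => φ (X i)) 0)
      rw [PowerSeries.monomial_mul_monomial] at h1
      exact h1
    · have h1 := inf_mul _ (ih h hh) (inf_gen (fun i => φ (X i)) 1)
      rw [PowerSeries.monomial_mul_monomial] at h1
      exact h1

end

theorem st_INF (hV : ST_VDEC) : ST_INF := by
  intro A _ _ φ hφ hfg
  choose f hf hne using hφ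
  have hmem := fun n => inf_mono hV φ n (f n) (hf n)
  have hfg' : (inf_S (fun i => φ (X i))).FG := hfg
  have hfin : Module.Finite ℚ (inf_S (fun i => φ (X i))) := Module.Finite.iff_fg.2 hfg'
  have hli : LinearIndependent ℚ (fun n : ℕ =>
      (⟨PowerSeries.monomial n (φ (f n)), hmem n⟩ : inf_S (fun i => φ (X i)))) := by
    rw [linearIndependent_iff']
    intro s g hg n hn
    have h1 := congrArg (fun y : inf_S (fun i => φ (X i)) => PowerSeries.coeff n (y : PowerSeries A)) hg
    simp only [Submodule.coe_sum, Submodule.coe_smul, ZeroMemClass.coe_zero, map_zero, map_sum] at h1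
    rw [Finset.sum_eq_single n] at h1
    · rw [PowerSeries.coeff_smul, PowerSeries.coeff_monomial, if_pos rfl] at h1
      exact (smul_eq_zero.1 h1).resolve_right (hne n)
    · intro m _ hmn
      rw [PowerSeries.coeff_smul, PowerSeries.coeff_monomial, if_neg (Ne.symm hmn), smul_zero]
    · exact fun h => absurd hn h
  have h2 : Finite ℕ := hli.finite
  exact not_finite ℕ

end Pool.Agent.Helper93.GS
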