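import Pool.Agent.Helper93.GS.Stmts

set_option autoImplicit false

/-! # Decomposition by the last letter (module VDEC) -/

namespace Pool.Agent.Helper93.GS

theorem vdec_last {u v : FreeMonoid (Fin 2)} {i j : Fin 2}
    (h : u * FreeMonoid.of i = v * FreeMonoid.of j) : u = v ∧ i = j := by
  have h1 := congrArg FreeMonoid.toList h
  rw [FreeMonoid.toList_mul, FreeMonoid.toList_mul, FreeMonoid.toList_of, FreeMonoid.toList_of] at h1
  have h2 := List.append_inj' h1 rfl
  refine ⟨FreeMonoid.toList.injective h2.1, ?_⟩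
  simpa using h2.2

theorem vdec_split (w : FreeMonoid (Fin 2)) (hw : w.length ≠ 0) :
    ∃ (u : FreeMonoid (Fin 2)) (j : Fin 2), w = u * FreeMonoid.of j := by
  rcases List.eq_nil_or_concat (FreeMonoid.toList w) with h | ⟨l, b, h⟩
  · exfalso
    apply hw
    have : w = 1 := FreeMonoid.toList.injective h
    rw [this]
    rfl
  · refine ⟨FreeMonoid.ofList l, b, FreeMonoid.toList.injective ?_⟩
    rw [h]
    simp

theorem vdec_inj (i : Fin 2) : Function.Injective (fun u : FreeMonoid (Fin 2) => u * FreeMonoid.of i) :=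
  fun _ _ h => (vdec_last h).1

/-- the part of `f` of the words ending in `i` -/
noncomputable def vdec_g (f : R) (i : Fin 2) : R :=
  MonoidAlgebra.ofCoeff (f.coeff.comapDomain (fun u => u * FreeMonoid.of i) (vdec_inj i).injOn)

theorem vdec_coeff (f : R) (i : Fin 2) (u : FreeMonoid (Fin 2)) :
    (vdec_g f i).coeff u = f.coeff (u * FreeMonoid.of i) := rfl

theorem vdec_mem {n : ℕ} {f : R} (hf : f ∈ V (n + 1)) (i : Fin 2) : vdec_g f i ∈ V n := by
  intro u hu
  rw [vdec_coeff] at hu
  have h := hf _ hu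
  rw [FreeMonoid.length_mul, FreeMonoid.length_of] at h
  omega

theorem vdec_X (f : R) (i j : Fin 2) (u : FreeMonoid (Fin 2)) :
    (vdec_g f i * X i).coeff (u * FreeMonoid.of j) =
      if i = j then f.coeff (u * FreeMonoid.of j) else 0 := by
  unfold X
  split_ifs with h
  · subst h
    rw [MonoidAlgebra.coeff_mul_single_eq_coeff_mul u, mul_one, vdec_coeff]
    intro v _
    exact ⟨fun h => (vdec_last h).1, fun h => by rw [h]⟩
  · rw [MonoidAlgebra.coeff_mul_single_of_forall_mul_ne]
    intro d hd
    exact h (vdec_last hd).2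

theorem vdec_X1 (f : R) (i : Fin 2) : (vdec_g f i * X i).coeff 1 = 0 := by
  unfold X
  rw [MonoidAlgebra.coeff_mul_single_of_forall_mul_ne]
  intro d hd
  have := congrArg FreeMonoid.length hd
  rw [FreeMonoid.length_mul, FreeMonoid.length_of, FreeMonoid.length_one] at this
  omega

theorem st_VDEC : ST_VDEC := by
  intro n f hf
  refine ⟨vdec_g f 0, vdec_mem hf 0, vdec_g f 1, vdec_mem hf 1, ?_⟩
  ext w
  rw [MonoidAlgebra.coeff_add, Finsupp.add_apply]
  by_cases hw : w.length = 0
  · have h1 : w = 1 := FreeMonoid.length_eq_zero.1 hw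
    subst h1
    rw [vdec_X1, vdec_X1, add_zero]
    by_contra h
    have := hf 1 h
    rw [FreeMonoid.length_one] at this
    omega
  · obtain ⟨u, j, rfl⟩ := vdec_split w hw
    rw [vdec_X, vdec_X]
    fin_cases j <;> simp

end Pool.Agent.Helper93.GS
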